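import Pool.Agent.Q298.CQ.All

/-!
# The maximal `p`-th moment of a centred Gaussian quadratic form

Let `g₁, …, g_n` be independent standard normal variables and `S_a = ∑ a_i (g_i² - 1)`, `a` in the unit sphere
of `ℝⁿ`, coefficients of either sign. For every `n ≥ 1` and every real `p > 2`

  `M_{n,p} = max E |S_a|^p = E |g² - 1|^p = (2π)^(-1/2) ∫ |x² - 1|^p exp(-x²/2) dx`,

and the maximum is attained at `± e_1, …, ± e_n` only.
-/

set_option autoImplicit false

open MeasureTheory ProbabilityTheory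

namespace Pool.Agent.Results.MP_c22ba5_pr.MaximalMoment

/-- `E |∑ a_i (g_i² - 1)|^p` for independent standard normal variables `g_i` -/
noncomputable def moment (n : ℕ) (p : ℝ) (a : Fin n → ℝ) : ℝ :=
  ∫ g : Fin n → ℝ, |∑ i, a i * (g i ^ 2 - 1)| ^ p ∂(Measure.pi fun _ : Fin n => gaussianReal 0 1)

/-- `M_{n,p}`, the supremum over the unit sphere -/
noncomputable def M (n : ℕ) (p : ℝ) : ℝ :=
  sSup {m : ℝ | ∃ a : Fin n → ℝ, ∑ i, a i ^ 2 = 1 ∧ m = moment n p a}

/-- The value of `M_{n,p}`, and the points where it is attained. -/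
theorem result (n : ℕ) (hn : 1 ≤ n) (p : ℝ) (hp : 2 < p) :
    M n p = ∫ x : ℝ, |x ^ 2 - 1| ^ p ∂(gaussianReal 0 1) ∧
    M n p = (Real.sqrt (2 * Real.pi))⁻¹ * ∫ x : ℝ, |x ^ 2 - 1| ^ p * Real.exp (-x ^ 2 / 2) ∧
    (∀ a : Fin n → ℝ, ∑ i, a i ^ 2 = 1 → moment n p a ≤ M n p) ∧
    (∀ a : Fin n → ℝ, ∑ i, a i ^ 2 = 1 →
      (moment n p a = M n p ↔ ∃ i, |a i| = 1 ∧ ∀ k, k ≠ i → a k = 0)) := by
  have key := fun (a : Fin n → ℝ) (ha : ∑ i, a i ^ 2 = 1) =>
    Pool.Agent.Q298.CQ.final_all hn hp a ha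
  have hmom : ∀ a : Fin n → ℝ, Pool.Agent.Q298.CQ.mom p a = moment n p a := fun a => rfl
  simp only [hmom] at key
  have hM : M n p = ∫ x : ℝ, |x ^ 2 - 1| ^ p ∂(gaussianReal 0 1) := by
    unfold M
    apply IsGreatest.csSup_eq
    constructor
    · refine ⟨Pi.single ⟨0, hn⟩ 1, ?_, ?_⟩
      · rw [Finset.sum_eq_single (⟨0, hn⟩ : Fin n)]
        · simp
        · intro k _ hk
          simp [hk]
        · simp
      · symm
        have hs : ∑ i, (Pi.single (⟨0, hn⟩ : Fin n) (1 : ℝ) : Fin n → ℝ) i ^ 2 = 1 := by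
          rw [Finset.sum_eq_single (⟨0, hn⟩ : Fin n)]
          · simp
          · intro k _ hk
            simp [hk]
          · simp
        apply (key _ hs).2.mpr
        refine ⟨⟨0, hn⟩, by simp, fun k hk => by simp [hk]⟩
    · rintro m ⟨a, ha, rfl⟩
      exact (key a ha).1
  refine ⟨hM, ?_, fun a ha => ?_, fun a ha => ?_⟩
  · rw [hM, integral_gaussianReal_eq_integral_smul one_ne_zero, ← integral_const_mul]
    congr 1
    funext x
    unfold gaussianPDFReal
    simp only [NNReal.coe_one, mul_one, sub_zero, smul_eq_mul]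
    ring
  · rw [hM]
    exact (key a ha).1
  · rw [hM]
    exact (key a ha).2

end Pool.Agent.Results.MP_c22ba5_pr.MaximalMoment
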